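import Pool.Agent.H92.SG.Stmts

/-!
# Module DIHF of board sg7: invariance of the integral form under the dihedral action
-/

namespace Pool.Agent.H85.SG

open Pool.Agent.H92.SG

theorem omZ_succ {R : Type} [CommRing R] (N : ℕ) (x y : ℕ → R) :
    omZ (N + 1) x y = omZ N x y + (-1) ^ N *
      ((∑ k ∈ Finset.range N, (-1 : R) ^ k * x k) * y N -
        x N * ∑ k ∈ Finset.range N, (-1 : R) ^ k * y k) := by
  have h : ∑ i ∈ Finset.range N, (-1 : R) ^ (i + N) * (x i * y N - x N * y i) =
      (-1) ^ N * ((∑ k ∈ Finset.range N, (-1 : R) ^ k * x k) * y N -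
        x N * ∑ k ∈ Finset.range N, (-1 : R) ^ k * y k) := by
    rw [Finset.sum_mul, Finset.mul_sum, ← Finset.sum_sub_distrib, Finset.mul_sum]
    refine Finset.sum_congr rfl fun k _ => ?_
    rw [pow_add]
    ring
  rw [omZ, Finset.sum_range_succ, h]
  rfl

theorem omZ_congr {R : Type} [CommRing R] (N : ℕ) (x x' y y' : ℕ → R)
    (hx : ∀ i < N, x' i = x i) (hy : ∀ i < N, y' i = y i) : omZ N x' y' = omZ N x y := by
  unfold omZ
  refine Finset.sum_congr rfl fun j hj => Finset.sum_congr rfl fun i hi => ?_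
  rw [Finset.mem_range] at hj hi
  rw [hx i (by omega), hx j hj, hy i (by omega), hy j hj]

theorem alt_congr {R : Type} [CommRing R] (N : ℕ) (x x' : ℕ → R)
    (hx : ∀ i < N, x' i = x i) :
    ∑ k ∈ Finset.range N, (-1 : R) ^ k * x' k = ∑ k ∈ Finset.range N, (-1 : R) ^ k * x k := by
  refine Finset.sum_congr rfl fun k hk => ?_
  rw [Finset.mem_range] at hk
  rw [hx k hk]

section gen

variable {R : Type} [CommRing R] {i : ℕ} {x x' y y' : ℕ → R}

theorem alt_gen (h0 : x' i = x (i + 1)) (h1 : x' (i + 1) = 2 * x (i + 1) - x i)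
    (h2 : ∀ j, j ≠ i → j ≠ i + 1 → x' j = x j) (N : ℕ) (hN : i + 1 < N) :
    ∑ k ∈ Finset.range N, (-1 : R) ^ k * x' k = ∑ k ∈ Finset.range N, (-1 : R) ^ k * x k := by
  induction N with
  | zero => omega
  | succ N ih =>
    by_cases h : i + 1 < N
    · rw [Finset.sum_range_succ, Finset.sum_range_succ, ih h, h2 N (by omega) (by omega)]
    · obtain rfl : N = i + 1 := by omega
      rw [Finset.sum_range_succ, Finset.sum_range_succ, Finset.sum_range_succ,
        Finset.sum_range_succ, h0, h1,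
        alt_congr i x x' (fun k hk => h2 k (by omega) (by omega)), pow_succ]
      ring

theorem omZ_gen (h0 : x' i = x (i + 1)) (h1 : x' (i + 1) = 2 * x (i + 1) - x i)
    (h2 : ∀ j, j ≠ i → j ≠ i + 1 → x' j = x j)
    (g0 : y' i = y (i + 1)) (g1 : y' (i + 1) = 2 * y (i + 1) - y i)
    (g2 : ∀ j, j ≠ i → j ≠ i + 1 → y' j = y j) (N : ℕ) (hN : i + 1 < N) :
    omZ N x' y' = omZ N x y := by
  induction N with
  | zero => omega
  | succ N ih =>
    by_cases h : i + 1 < N
    · rw [omZ_succ, omZ_succ, ih h, alt_gen h0 h1 h2 N h, alt_gen g0 g1 g2 N h,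
        h2 N (by omega) (by omega), g2 N (by omega) (by omega)]
    · obtain rfl : N = i + 1 := by omega
      rw [omZ_succ, omZ_succ, omZ_succ, omZ_succ, Finset.sum_range_succ, Finset.sum_range_succ,
        Finset.sum_range_succ, Finset.sum_range_succ, h0, h1, g0, g1,
        alt_congr i x x' (fun k hk => h2 k (by omega) (by omega)),
        alt_congr i y y' (fun k hk => g2 k (by omega) (by omega)),
        omZ_congr i x x' y y' (fun k hk => h2 k (by omega) (by omega))
          (fun k hk => g2 k (by omega) (by omega)), pow_succ]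
      ring

end gen

theorem DIHF_thm (hDIHA : DihA) : DihFormStmt := by
  intro A _ N x hx
  refine Bn_induction (p := fun x => ∀ a a' : ℕ → A,
    omZ N (dih A x a) (dih A x a') = omZ N a a') ?_ ?_ ?_ ?_ hx
  · intro a a'
    rw [map_one]
    rfl
  · intro i hi a a'
    have e : ∀ a : ℕ → A, (dih A (σ i) a) i = a (i + 1) := by
      intro a; rw [hDIHA.σ_apply]; simp
    have f : ∀ a : ℕ → A, (dih A (σ i) a) (i + 1) = 2 * a (i + 1) - a i := by
      intro a; rw [hDIHA.σ_apply]; simp
    have g : ∀ (a : ℕ → A) (j : ℕ), j ≠ i → j ≠ i + 1 → (dih A (σ i) a) j = a j := by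
      intro a j h1 h2; rw [hDIHA.σ_apply]; simp [h1, h2]
    exact omZ_gen (e a) (f a) (g a) (e a') (f a') (g a') N hi
  · intro y _ z _ hy hz a a'
    rw [map_mul]
    exact (hy _ _).trans (hz _ _)
  · intro y _ hy a a'
    have e : ∀ a : ℕ → A, dih A y (dih A y⁻¹ a) = a := by
      intro a
      have : dih A (y * y⁻¹) a = a := by rw [mul_inv_cancel, map_one]; rfl
      rw [map_mul] at this
      exact this
    rw [← hy (dih A y⁻¹ a) (dih A y⁻¹ a'), e, e]

end Pool.Agent.H85.SG
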